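import Pool.Agent.helper67.RG.Spec3
import Pool.Agent.helper55.FLD.All

/-!
# Project rg, row FAD
-/

namespace Pool.Agent.RG.FAD

open Matrix Polynomial Pool.Agent.GO Pool.Agent.AR Pool.Agent.RG

theorem FAD_dirSum_one {Γ F : Type*} [Group Γ] [Field F] {r : ℕ} {n : Fin r → ℕ}
    (V : (i : Fin r) → Γ →* Matrix (Fin (n i)) (Fin (n i)) F) (h : Γ) (hh : dirSum V h = 1)
    (i : Fin r) : V i h = 1 := by
  have h1 : Matrix.blockDiagonal' (fun i => V i h) =
      Matrix.blockDiagonal' (1 : (i : Fin r) → Matrix (Fin (n i)) (Fin (n i)) F) := by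
    rw [Matrix.blockDiagonal'_one]
    exact hh
  have h2 := Matrix.blockDiagonal'_injective h1
  exact congrFun h2 i

theorem FAD_dirSum_map {Γ F Ω : Type*} [Group Γ] [Field F] [Field Ω] (j : F →+* Ω) {r : ℕ}
    {n : Fin r → ℕ} (V : (i : Fin r) → Γ →* Matrix (Fin (n i)) (Fin (n i)) F) :
    bc j (dirSum V) = dirSum fun i => bc j (V i) := by
  ext1 g
  show (Matrix.blockDiagonal' fun i => V i g).map j =
    Matrix.blockDiagonal' fun i => (V i g).map j
  exact Matrix.blockDiagonal'_map _ _ (map_zero j)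

theorem FAD : FAD_stmt := by
  intro p _ Γ _ _ _ _ F Ω _ _ _ _ _ _ r n V ρ hV hρ hSI hmeet
  have hcont : Continuous (dirSum V) := by
    show Continuous fun g => Matrix.blockDiagonal' fun i => V i g
    exact Continuous.matrix_blockDiagonal' (continuous_pi fun i => hV i)
  rcases Pool.Agent.FLD.ALL p Γ (Σ i : Fin r, Fin (n i)) F Ω (dirSum V) ρ hcont hρ hSI with
    ⟨U, hU, h⟩ | ⟨U, hU, h⟩
  · refine ⟨U, hU, fun i j => ?_⟩
    rw [← FAD_dirSum_map]
    exact h i j
  · exfalso
    apply hmeet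
    have _ : Finite (Γ ⧸ U) := Subgroup.quotient_finite_of_isOpen U hU
    have hfin : U.FiniteIndex := Subgroup.finiteIndex_of_finite_quotient
    have hle : U ≤ meet V ρ := by
      intro g hg
      obtain ⟨h', h1, c, hc⟩ := h g hg
      exact ⟨h', fun i => FAD_dirSum_one V h' h1 i, c, hc⟩
    exact Subgroup.finiteIndex_of_le hle

end Pool.Agent.RG.FAD
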