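import Pool.Agent.helper67.RG.Spec

/-!
# Row rg:UNI
-/

namespace Pool.Agent.RG.UNI

open Matrix Polynomial Pool.Agent.GO Pool.Agent.AR MeasureTheory Kronecker

universe u v w

theorem UNI (hBUR : BUR_stmt.{u, v, w}) : UNI_stmt.{u, v, w} := by
  intro F Γ m _ _ _ _ _ W hW htr g
  have hspan := hBUR W hW
  have h1 : ∀ Y : Matrix m m F, ((W g - 1) * Y).trace = 0 := by
    intro Y
    have hY : Y ∈ Submodule.span F (Set.range W) := by rw [hspan]; trivial
    induction hY using Submodule.span_induction with
    | mem Y hY =>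
      obtain ⟨h, rfl⟩ := hY
      rw [sub_mul, one_mul, ← map_mul, Matrix.trace_sub, htr, htr, sub_self]
    | zero => rw [mul_zero, Matrix.trace_zero]
    | add a b _ _ ha hb => rw [mul_add, Matrix.trace_add, ha, hb, add_zero]
    | smul c a _ ha => rw [Matrix.mul_smul, Matrix.trace_smul, ha, smul_zero]
  have h2 : W g - 1 = 0 := by
    ext i j
    have h3 := h1 (Matrix.single j i 1)
    rw [Matrix.trace_mul_single] at h3
    simpa using h3
  exact sub_eq_zero.1 h2

end Pool.Agent.RG.UNI
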